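import Pool.Agent.Q113.XU.Stm

/-!
# Project XU, job CPT: compactness
-/

set_option autoImplicit false

namespace Pool.Agent.Q224.XU

open Finset Pool.Agent.Q54.EM Pool.Agent.Q113.XM Pool.Agent.Q113.XU Filter Topology

theorem t_CPT : S_FIN → S_NMO → S_LBD → S_NCL → S_Z0L → S_ZTL → S_ZEL → S_SQ1 → S_STL → S_CLL →
    S_CPT := by
  intro hFIN hNMO hLBD hNCL hZ0 hZT hZE hSQ hST hCL k r γ hk hrc hγ
  obtain ⟨M, δ, hδ, hM⟩ := hLBD k r hk hrc
  have hKEY := hFIN k hk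
  by_contra hcon
  have hex : ∀ η : ℝ, 0 < η → ∃ (ι : Type) (_ : Fintype ι) (p x : ι → ℝ) (l : ℝ),
      Op k p x r l ∧ PR p x k k ≤ 1 - r ^ k + η ∧ γ ≤ dS k p x ∧ γ ≤ dC p x := by
    intro η hη
    by_contra hc2
    apply hcon
    refine ⟨η, hη, fun ι _ p x l ho hPR => ?_⟩
    by_contra hno
    push Not at hno
    exact hc2 ⟨ι, _, p, x, l, ho, hPR, hno.1, hno.2⟩
  have hpos : ∀ j : ℕ, 0 < δ / ((j : ℝ) + 1) := fun j => by positivity
  choose ι inst p x l ho hPR hS hC using fun j : ℕ => hex (δ / ((j : ℝ) + 1)) (hpos j)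
  have hr0 : 0 < r := hrc.1
  have hr1 : r < 1 := hrc.2.1
  have hk0 : (0 : ℝ) < k := by exact_mod_cast (by omega : 0 < k)
  obtain ⟨h, hh⟩ : ∃ h : ℕ → ℝ, h = fun j => @Pool.Agent.Q54.EM.hh (ι j) (inst j) k (p j) (x j) :=
    ⟨_, rfl⟩
  obtain ⟨w, hw⟩ : ∃ w : ℕ → ℝ, w = fun j => PR (p j) (x j) (k - 1) k := ⟨_, rfl⟩
  obtain ⟨W, hW⟩ : ∃ W : ℕ → ℝ, W = fun j => PR (p j) (x j) k k := ⟨_, rfl⟩
  have hhj : ∀ j, Pool.Agent.Q54.EM.hh k (p j) (x j) = h j := fun j => by rw [hh]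
  have hwj : ∀ j, PR (p j) (x j) (k - 1) k = w j := fun j => by rw [hw]
  have hWj : ∀ j, PR (p j) (x j) k k = W j := fun j => by rw [hW]
  have hNm : ∀ j, Nm k r (l j) (h j) (w j) (W j) := by
    intro j
    rw [← hhj, ← hwj, ← hWj]
    exact (hNMO (ι j) (p j) (x j) k r (l j) hk hrc (ho j)).1
  have hlam : ∀ j, lam k (p j) (x j) = 1 - r / l j := fun j =>
    (hNMO (ι j) (p j) (x j) k r (l j) hk hrc (ho j)).2.2.2
  have hWlow : ∀ j, 1 - r ^ k ≤ W j := by
    intro j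
    rw [← hWj]
    exact hKEY (ι j) (p j) (x j) r (fun i => ((ho j).law.pos i).le) (ho j).law.sum
      (ho j).law.nn (ho j).m hrc
  have hWup : ∀ j : ℕ, W j ≤ 1 - r ^ k + δ / ((j : ℝ) + 1) := by
    intro j
    rw [← hWj]
    exact hPR j
  have hdj : ∀ j : ℕ, δ / ((j : ℝ) + 1) ≤ δ := by
    intro j
    rw [div_le_iff₀ (by positivity)]
    have : 0 ≤ δ * j := by positivity
    linarith
  have hlM : ∀ j, l j ≤ M := fun j =>
    hM _ _ _ _ (hNm j) ((hWup j).trans (by linarith [hdj j]))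
  have hw0 : ∀ j, 0 ≤ w j := by
    intro j
    have h1 := (hNm j).w1e
    have h2 := (hNm j).W0
    have h3 : 0 < 1 - r / l j := by
      have := (hNm j).ql
      have hl := (hNm j).l0
      rw [sub_pos, div_lt_one hl]
      exact this
    by_contra hneg
    push Not at hneg
    have := mul_neg_of_neg_of_pos hneg h3
    linarith
  -- a convergent subsequence
  have hcomp : IsCompact (Set.Icc (0 : ℝ) M ×ˢ (Set.Icc (0 : ℝ) k ×ˢ Set.Icc (0 : ℝ) 1)) :=
    isCompact_Icc.prod (isCompact_Icc.prod isCompact_Icc)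
  obtain ⟨⟨L, H, w0⟩, -, φ, hφ, hlim⟩ := hcomp.tendsto_subseq
    (x := fun j => (l j, h j, w j)) (fun j =>
      ⟨⟨(hNm j).l0.le, hlM j⟩, ⟨(hNm j).h0.le, (hNm j).hk⟩, ⟨hw0 j, (hNm j).w11⟩⟩)
  have hL : Tendsto (fun j => l (φ j)) atTop (𝓝 L) :=
    (continuous_fst.tendsto (L, H, w0)).comp hlim
  have hH : Tendsto (fun j => h (φ j)) atTop (𝓝 H) :=
    ((continuous_fst.comp continuous_snd).tendsto (L, H, w0)).comp hlim
  have hw1 : Tendsto (fun j => w (φ j)) atTop (𝓝 w0) :=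
    ((continuous_snd.comp continuous_snd).tendsto (L, H, w0)).comp hlim
  have hWt0 : Tendsto W atTop (𝓝 (1 - r ^ k)) := by
    have e1 : Tendsto (fun j : ℕ => 1 - r ^ k + δ / ((j : ℝ) + 1)) atTop (𝓝 (1 - r ^ k + 0)) :=
      tendsto_const_nhds.add (tendsto_const_div_atTop_nhds_zero_nat δ |>.comp (tendsto_add_atTop_nat 1)
        |>.congr fun j => by simp)
    rw [add_zero] at e1
    exact tendsto_of_tendsto_of_tendsto_of_le_of_le tendsto_const_nhds e1 hWlow hWup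
  have hWt : Tendsto (fun j => W (φ j)) atTop (𝓝 (1 - r ^ k)) := hWt0.comp hφ.tendsto_atTop
  have hN := hNCL k r (fun j => l (φ j)) (fun j => h (φ j)) (fun j => w (φ j)) (fun j => W (φ j))
    L H w0 (fun j => hNm (φ j)) hL hH hw1 hWt
  have hL0 : 0 < L := hr0.trans hN.ql
  rcases hZ0 k r L H w0 hN with hLk | ⟨hLk, hHk⟩
  · by_cases hq : r / L ≤ 62 / 100
    · have h8 := hZT k r L H w0 hN hq
      refine hSQ k r (fun j => ι (φ j)) (fun j => p (φ j)) (fun j => x (φ j)) (fun j => l (φ j))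
        L H w0 ⟨hk, hrc, fun j => ho (φ j), ?_, hL, ?_, ?_⟩ h8 hLk
      · simp only [hWj]
        exact hWt
      · simp only [hhj]
        exact hH
      · simp only [hwj]
        exact hw1
    · push Not at hq
      obtain ⟨z1, z2⟩ := hZE k r L H w0 hN hq
      have t1 : Tendsto (fun j => l (φ j) * ((1 - r / l (φ j)) * h (φ j) - k * (1 - r))) atTop
          (𝓝 (L * ((1 - r / L) * H - k * (1 - r)))) :=
        hL.mul (((tendsto_const_nhds.sub (tendsto_const_nhds.div hL hL0.ne')).mul hH).sub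
          tendsto_const_nhds)
      have ev1 : ∀ᶠ j in atTop, l (φ j) * ((1 - r / l (φ j)) * h (φ j) - k * (1 - r)) <
          6001 / 100000 := t1.eventually_lt_const (by linarith)
      have ev2 : ∀ᶠ j in atTop, l (φ j) < 1613 / 1000 := hL.eventually_lt_const z2
      have t2 : Tendsto (fun j => 60 * (W (φ j) - (1 - r ^ k))) atTop
          (𝓝 (60 * ((1 - r ^ k) - (1 - r ^ k)))) :=
        (hWt.sub tendsto_const_nhds).const_mul 60
      rw [sub_self, mul_zero] at t2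
      have ev3 : ∀ᶠ j in atTop, 60 * (W (φ j) - (1 - r ^ k)) < γ := t2.eventually_lt_const hγ
      obtain ⟨j, e1, e2, e3⟩ := (ev1.and (ev2.and ev3)).exists
      have := hCL (ι (φ j)) (p (φ j)) (x (φ j)) k r (l (φ j)) hk hrc (ho (φ j)) e2.le (by
        rw [hlam, hhj]
        exact e1.le)
      rw [hWj] at this
      linarith [hC (φ j)]
  · have t1 : Tendsto (fun j => (k : ℝ) - h (φ j)) atTop (𝓝 ((k : ℝ) - H)) :=
      tendsto_const_nhds.sub hH
    rw [hHk, sub_self] at t1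
    have hg : 0 < γ * (1 - r) ^ (k - 1) := mul_pos hγ (pow_pos (by linarith) _)
    obtain ⟨j, hj⟩ := (t1.eventually_lt_const hg).exists
    have h1 := hST (ι (φ j)) (p (φ j)) (x (φ j)) k r (l (φ j)) hk hrc (ho (φ j))
    rw [hhj] at h1
    have h2 : γ * (1 - r) ^ (k - 1) ≤ dS k (p (φ j)) (x (φ j)) * (1 - r) ^ (k - 1) :=
      mul_le_mul_of_nonneg_right (hS (φ j)) (pow_nonneg (by linarith) _)
    linarith

end Pool.Agent.Q224.XU
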