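import Pool.Agent.Q113.XU.Stm
import Pool.Agent.Q68.EM.W2

/-!
# Project XU, job CLL: the zone `r / l > 0.62`, quantitative
-/

set_option autoImplicit false

namespace Pool.Agent.Q224.XU

open Finset Pool.Agent.Q54.EM Pool.Agent.Q113.XM Pool.Agent.Q113.XU

namespace Cll

open Pool.Agent.Q68.EM.W (EE_id EE_ge EE_pos)

/-- the mean of `|S_n - y|` -/
theorem EE_absd (hE : S_EEL) {ι : Type} [Fintype ι] (p x : ι → ℝ) (hp : ∑ i, p i = 1) (n : ℕ)
    (y : ℝ) : EE p x n (fun s => |s - y|) = 2 * GP p x n y + (n * (∑ i, p i * x i) - y) := by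
  have h1 := (hE ι p x n).1 (fun s => max (s - y) 0) (fun s => max (y - s) 0)
  rw [EE_pos hE p x hp] at h1
  have h2 : EE p x n (fun s => |s - y|) =
      EE p x n (fun s => max (s - y) 0 + max (y - s) 0) := by
    congr 1
    funext s
    rcases le_total s y with h | h
    · rw [max_eq_right (by linarith), max_eq_left (by linarith), abs_of_nonpos (by linarith)]
      ring
    · rw [max_eq_left (by linarith), max_eq_right (by linarith), abs_of_nonneg (by linarith)]
      ring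
  rw [h2, h1]
  have h3 : EE p x n (fun s => max (y - s) 0) = GP p x n y := rfl
  rw [h3]
  ring

/-- the first absolute moment of one entry -/
theorem one_entry (hE : S_EEL) {ι : Type} [Fintype ι] {q x : ι → ℝ} (hq0 : ∀ i, 0 ≤ q i)
    (hq1 : ∑ i, q i = 1) (hx : ∀ i, 0 ≤ x i) {d : ℝ} (hm : ∑ i, q i * x i = 1 + d) (hd : 0 ≤ d)
    (m : ℕ) (y : ℝ) : ∑ i, q i * |x i - 1| ≤ 2 * EE q x (m + 1) (fun s => |s - y|) + d := by
  have h0 : EE q x (m + 1) (fun s => |s - y|) =
      ∑ i, q i * EE q x m (fun s => |s + x i - y|) := rfl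
  obtain ⟨A, hA⟩ : ∃ A : ι → ℝ, A = fun i => EE q x m (fun s => |s + x i - y|) := ⟨_, rfl⟩
  have hAi : ∀ i, EE q x m (fun s => |s + x i - y|) = A i := fun i => by rw [hA]
  have h1 : ∀ a b, |x a - x b| ≤ A a + A b := by
    intro a b
    rw [← hAi, ← hAi, ← (hE ι q x m).1]
    have h2 : EE q x m (fun _ => |x a - x b|) = |x a - x b| := (hE ι q x m).2.2.2.2.1 hq1 _
    rw [← h2]
    refine (hE ι q x m).2.2.2.1 hq0 hx _ _ fun s _ => ?_
    have e : x a - x b = (s + x a - y) - (s + x b - y) := by ring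
    show |x a - x b| ≤ |s + x a - y| + |s + x b - y|
    rw [e]
    exact abs_sub _ _
  have hsum : ∑ i, q i * A i = EE q x (m + 1) (fun s => |s - y|) := by
    rw [h0]
    exact Finset.sum_congr rfl fun i _ => by rw [hAi]
  have h3 : ∀ a, |x a - (1 + d)| ≤ A a + EE q x (m + 1) (fun s => |s - y|) := by
    intro a
    have e1 : x a - (1 + d) = ∑ b, q b * (x a - x b) := by
      have : ∑ b, q b * (x a - x b) = (∑ b, q b) * x a - ∑ b, q b * x b := by
        rw [Finset.sum_mul, ← Finset.sum_sub_distrib]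
        exact Finset.sum_congr rfl fun b _ => by ring
      rw [this, hq1, hm]
      ring
    rw [e1]
    calc |∑ b, q b * (x a - x b)| ≤ ∑ b, |q b * (x a - x b)| := Finset.abs_sum_le_sum_abs _ _
      _ ≤ ∑ b, q b * (A a + A b) := by
          refine Finset.sum_le_sum fun b _ => ?_
          rw [abs_mul, abs_of_nonneg (hq0 b)]
          exact mul_le_mul_of_nonneg_left (h1 a b) (hq0 b)
      _ = (∑ b, q b) * A a + ∑ b, q b * A b := by
          rw [Finset.sum_mul, ← Finset.sum_add_distrib]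
          exact Finset.sum_congr rfl fun b _ => by ring
      _ = _ := by rw [hq1, hsum, one_mul]
  obtain ⟨E, hEd⟩ : ∃ E, E = EE q x (m + 1) (fun s => |s - y|) := ⟨_, rfl⟩
  rw [← hEd] at hsum h3 ⊢
  calc ∑ i, q i * |x i - 1| ≤ ∑ i, q i * (A i + E + d) := by
        refine Finset.sum_le_sum fun i _ => mul_le_mul_of_nonneg_left ?_ (hq0 i)
        have e : x i - 1 = (x i - (1 + d)) + d := by ring
        rw [e]
        calc |(x i - (1 + d)) + d| ≤ |x i - (1 + d)| + |d| := abs_add_le _ _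
          _ ≤ A i + E + d := by rw [abs_of_nonneg hd]; linarith [h3 i]
    _ = ∑ i, q i * A i + (∑ i, q i) * (E + d) := by
        rw [Finset.sum_mul, ← Finset.sum_add_distrib]
        exact Finset.sum_congr rfl fun b _ => by ring
    _ = 2 * E + d := by rw [hsum, hq1]; ring

theorem cll (hK : S_KAP) (hT : S_THE) (hM : S_MXP) (hL : S_LZ) (hC : S_CS) (hE : S_EEL)
    (hB : S_LMB) : S_CLL := by
  intro ι _ p x k r l hk hrc ho hl hsm
  obtain ⟨ha0, ha1, -, -, hT1, hT2, -, -, hr92⟩ := hC k r hk hrc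
  have hlaw := ho.law
  have hr0 : 0 < r := hrc.1
  have hr1 : r < 1 := hrc.2.1
  have hkR : (6 : ℝ) ≤ k := by exact_mod_cast hk
  have hxl : ∀ i, x i ≤ l := (hB ι p x k l (by omega) hlaw (by rw [ho.m]; exact hr1) ho.kk).2
  have hlz := hL ι p x k r l (by omega) hlaw ho.m hr1 ho.kk
  have hb1 := ho.b1
  obtain ⟨P, hP⟩ : ∃ P, P = ∑ i, (if 0 < x i then p i else 0) := ⟨_, rfl⟩
  rw [← hP] at hlz hb1
  obtain ⟨V, hV⟩ : ∃ V, V = ∑ i, (if 0 < x i then p i * (x i - 1) ^ 2 else 0) := ⟨_, rfl⟩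
  rw [← hV] at hlz
  have hV0 : 0 ≤ V := by
    rw [hV]
    refine Finset.sum_nonneg fun i _ => ?_
    split_ifs
    · exact mul_nonneg (hlaw.pos i).le (sq_nonneg _)
    · exact le_rfl
  have hkV : 0 ≤ (k : ℝ) * V := mul_nonneg (by linarith) hV0
  have hP91 : 9095 / 10000 ≤ P := by
    have h1 : (k : ℝ) * (r - P) ≤ 6001 / 100000 := by linarith
    have h2 : 6 * (r - P) ≤ k * (r - P) := mul_le_mul_of_nonneg_right hkR (by linarith)
    linarith
  have hP0 : 0 < P := by linarith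
  obtain ⟨q, hq⟩ : ∃ q : ι → ℝ, q = fun i => if 0 < x i then p i / P else 0 := ⟨_, rfl⟩
  have hPq : ∀ i, P * q i = if 0 < x i then p i else 0 := by
    intro i
    rw [hq]
    show P * (if 0 < x i then p i / P else 0) = _
    split_ifs
    · rw [mul_div_cancel₀ _ hP0.ne']
    · rw [mul_zero]
  have hq0 : ∀ i, 0 ≤ q i := by
    intro i
    rw [hq]
    show 0 ≤ (if 0 < x i then p i / P else 0)
    split_ifs
    · exact div_nonneg (hlaw.pos i).le hP0.le
    · exact le_rfl
  have hq1 : ∑ i, q i = 1 := by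
    have h1 : P * ∑ i, q i = P := by
      rw [Finset.mul_sum, Finset.sum_congr rfl fun i _ => hPq i]
      exact hP.symm
    exact mul_left_cancel₀ hP0.ne' (h1.trans (mul_one P).symm)
  have hqm : P * ∑ i, q i * x i = r := by
    rw [Finset.mul_sum, ← ho.m]
    unfold mu
    refine Finset.sum_congr rfl fun i _ => ?_
    rw [← mul_assoc, hPq]
    by_cases h : 0 < x i
    · rw [if_pos h]
    · have : x i = 0 := le_antisymm (not_lt.mp h) (hlaw.nn i)
      rw [this, mul_zero, mul_zero]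
  have hqv : P * ∑ i, q i * (x i - 1) ^ 2 = V := by
    rw [Finset.mul_sum, hV]
    refine Finset.sum_congr rfl fun i _ => ?_
    rw [← mul_assoc, hPq]
    split_ifs
    · rfl
    · rw [zero_mul]
  obtain ⟨d, hd⟩ : ∃ d, d = ∑ i, q i * x i - 1 := ⟨_, rfl⟩
  have hm : ∑ i, q i * x i = 1 + d := by linarith
  have hPd : P * (1 + d) = r := by rw [← hm]; exact hqm
  have hd0 : 0 ≤ d := by
    by_contra hneg
    push Not at hneg
    nlinarith
  have hv : (k : ℝ) * (∑ i, q i * (x i - 1) ^ 2 + (∑ i, q i * x i - 1)) ≤ 66 / 1000 := by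
    rw [← hd]
    obtain ⟨v2, hv2⟩ : ∃ v2, v2 = ∑ i, q i * (x i - 1) ^ 2 := ⟨_, rfl⟩
    rw [← hv2] at hqv ⊢
    have h1 : P * (k * (v2 + d)) ≤ 6001 / 100000 := by
      have h2 : P * (k * (v2 + d)) = k * (P * v2) + k * (P * (1 + d) - P) := by ring
      rw [h2, hqv, hPd]
      linarith
    by_contra hcon
    push Not at hcon
    nlinarith
  have hv20 : 0 ≤ ∑ i, q i * (x i - 1) ^ 2 :=
    Finset.sum_nonneg fun i _ => mul_nonneg (hq0 i) (sq_nonneg _)
  have hkd : (k : ℝ) * d ≤ 66 / 1000 := by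
    rw [← hd] at hv
    have : 0 ≤ (k : ℝ) * ∑ i, q i * (x i - 1) ^ 2 := mul_nonneg (by linarith) hv20
    linarith
  have hkd0 : 0 ≤ (k : ℝ) * d := mul_nonneg (by linarith) hd0
  -- the two tail lemmas
  have hkap := hK ι q x k hq0 hq1 hlaw.nn (by rw [hm]; linarith) hv k k le_rfl (by linarith)
  have hthe := hT ι q x k hq0 hq1 hlaw.nn (fun i _ => (hxl i).trans hl) (by rw [hm]; linarith) hv
    (k - 1) k (by omega) (by
      rw [Nat.cast_sub (by omega), Nat.cast_one]
      linarith)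
  have hkk : k - 1 + 1 = k := by omega
  rw [hkk, EE_ge hE q x hq1, EE_pos hE q x hq1, hm] at hthe
  have hmxp := hM ι p x P hlaw hP0 hP (k - 1) (fun s => if (k : ℝ) ≤ s then 1 else 0) (by
    intro s t _ hst
    show (if (k : ℝ) ≤ s then (1 : ℝ) else 0) ≤ if (k : ℝ) ≤ t then (1 : ℝ) else 0
    by_cases h : (k : ℝ) ≤ s
    · rw [if_pos h, if_pos (h.trans hst)]
    · rw [if_neg h]
      split_ifs
      · exact zero_le_one
      · exact le_rfl)
  rw [← hq, hkk, EE_ge hE p x hlaw.sum, EE_ge hE q x hq1, EE_ge hE q x hq1] at hmxp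
  have hg0 : 0 ≤ PR q x k k := by
    have h1 := (hE ι q x k).2.2.2.1 hq0 hlaw.nn (fun _ => 0) (fun s => if s < k then 1 else 0)
      (fun s _ => by
        show (0 : ℝ) ≤ if s < (k : ℝ) then (1 : ℝ) else 0
        split_ifs
        · exact zero_le_one
        · exact le_rfl)
    rw [(hE ι q x k).2.2.2.2.1 hq1] at h1
    exact h1
  have habs := EE_absd hE q x hq1 k k
  have hone := one_entry hE hq0 hq1 hlaw.nn hm hd0 (k - 1) k
  rw [hkk, habs, hm] at hone
  obtain ⟨g, hg⟩ : ∃ g, g = PR q x k k := ⟨_, rfl⟩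
  rw [← hg] at hkap hmxp hg0
  obtain ⟨h1, hh1⟩ : ∃ h1, h1 = 1 - PR q x (k - 1) k := ⟨_, rfl⟩
  rw [← hh1] at hthe hmxp
  obtain ⟨G, hG⟩ : ∃ G, G = GP q x k k := ⟨_, rfl⟩
  rw [← hG] at hkap hthe hone
  have e1 : (k : ℝ) * (1 + d) - k = k * d := by ring
  rw [e1] at hthe hone
  have hthe' : h1 ≤ 99 / 100 * g + 66 / 100 * (k * d) := by linarith
  -- powers
  have hPk1 : P ^ k * (1 + k * d) ≤ r ^ k := by
    rw [← hPd, mul_pow]
    exact mul_le_mul_of_nonneg_left (one_add_mul_le_pow (by linarith) k) (pow_nonneg hP0.le k)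
  have hPk2 : 59 / 100 ≤ P ^ k := by
    have e1 : r * (1 - d) ≤ P := by
      rw [← hPd]
      nlinarith [mul_nonneg hP0.le (mul_nonneg hd0 hd0)]
    have hd1 : d ≤ 66 / 1000 := by nlinarith
    have e2 : (r * (1 - d)) ^ k ≤ P ^ k := pow_le_pow_left₀ (mul_nonneg hr0.le (by linarith)) e1 k
    have e3 : 1 + (k : ℝ) * (-d) ≤ (1 + -d) ^ k := one_add_mul_le_pow (by linarith) k
    have e4 : 6321 / 10000 ≤ r ^ k := by linarith
    have e5 : 934 / 1000 ≤ (1 - d) ^ k := by
      rw [sub_eq_add_neg]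
      linarith
    have e6 : 6321 / 10000 * (934 / 1000) ≤ r ^ k * (1 - d) ^ k :=
      mul_le_mul e4 e5 (by norm_num) (by linarith)
    rw [mul_pow] at e2
    linarith
  have hPk3 : P ^ k ≤ 1 := pow_le_one₀ hP0.le (by linarith)
  obtain ⟨Q, hQ⟩ : ∃ Q, Q = P ^ k := ⟨_, rfl⟩
  rw [← hQ] at hPk1 hPk2 hPk3 hmxp
  have hfin : (1 - Q) * h1 ≤ (1 - Q) * (99 / 100 * g + 66 / 100 * (k * d)) :=
    mul_le_mul_of_nonneg_left hthe' (by linarith)
  obtain ⟨z, hz⟩ : ∃ z, z = (k : ℝ) * d := ⟨_, rfl⟩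
  rw [← hz] at hkd0 hone hthe' hPk1 hfin
  have f1 : (1 - Q) * (99 / 100 * g) + 16 / 100 * g ≤ Q * g := by
    have : 0 ≤ (199 / 100 * Q - 115 / 100) * g := mul_nonneg (by linarith) hg0
    linarith
  have f2 : (1 - Q) * (66 / 100 * z) + 3 / 10 * z ≤ Q * z := by
    have : 0 ≤ (166 / 100 * Q - 96 / 100) * z := mul_nonneg (by linarith) hkd0
    linarith
  obtain ⟨D, hD⟩ : ∃ D, D = PR p x k k - (1 - r ^ k) := ⟨_, rfl⟩
  rw [← hD]
  have f3 : 3 / 10 * z + 16 / 100 * g ≤ D := by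
    have e2 : (1 - Q) * (99 / 100 * g + 66 / 100 * z) =
      (1 - Q) * (99 / 100 * g) + (1 - Q) * (66 / 100 * z) := by ring
    have e3 : Q * (1 - g) = Q - Q * g := by ring
    have e4 : Q * (1 + z) = Q + Q * z := by ring
    rw [hD]
    linarith
  have f4 : 2 * G + z ≤ 19 * D := by linarith
  have f5 : d ≤ D := by
    have : 6 * d ≤ z := by rw [hz]; exact mul_le_mul_of_nonneg_right hkR hd0
    linarith
  have f6 : ∑ i, q i * |x i - 1| ≤ 60 * D := by linarith
  calc dC p x ≤ P * ∑ i, q i * |x i - 1| := by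
        unfold dC
        rw [Finset.mul_sum]
        refine Finset.sum_le_sum fun i _ => ?_
        rw [← mul_assoc, hPq]
        by_cases h : 0 < x i
        · rw [if_pos h]
          exact mul_le_mul_of_nonneg_left (min_le_right _ _) (hlaw.pos i).le
        · have h0 : x i = 0 := le_antisymm (not_lt.mp h) (hlaw.nn i)
          rw [if_neg h, h0, zero_mul]
          simp
    _ ≤ 1 * ∑ i, q i * |x i - 1| := by
        refine mul_le_mul_of_nonneg_right (by linarith) ?_
        exact Finset.sum_nonneg fun i _ => mul_nonneg (hq0 i) (abs_nonneg _)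
    _ ≤ 60 * D := by rw [one_mul]; exact f6

end Cll

/-- with statements of project EM as additional hypotheses -/
theorem t_CLL : S_KAP → S_THE → S_MXP → S_LZ → S_CS → S_EEL → S_LMB → S_CLL := Cll.cll

end Pool.Agent.Q224.XU
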