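import Pool.Agent.Q113.XU.Stm

/-!
# Project XU, job CTE: at most one exceptional entry
-/

set_option autoImplicit false

namespace Pool.Agent.Q224.XU

open Finset Pool.Agent.Q54.EM Pool.Agent.Q113.XM Pool.Agent.Q113.XU

namespace Cte

theorem prod_one {k : ℕ} (j : Fin k) (b c : ℝ) :
    ∏ i, (if i = j then b else c) = b * c ^ (k - 1) := by
  rw [← Finset.mul_prod_erase univ _ (mem_univ j), if_pos rfl]
  congr 1
  have h : ∀ i ∈ univ.erase j, (if i = j then b else c) = c := fun i hi => if_neg (ne_of_mem_erase hi)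
  rw [Finset.prod_congr rfl h, prod_const, card_erase_of_mem (mem_univ j), card_univ,
    Fintype.card_fin]

theorem prod_two {k : ℕ} {j j' : Fin k} (h : j ≠ j') (e : ℝ) :
    ∏ i, (if i = j ∨ i = j' then e else 1) = e * e := by
  have h1 : ∀ i, (if i = j ∨ i = j' then e else 1) =
      (if i = j then e else 1) * (if i = j' then e else 1) := by
    intro i
    by_cases h1 : i = j
    · have : ¬ i = j' := fun h2 => h (h1.symm.trans h2)
      simp [h1, h]
    · simp [h1]
  rw [Finset.prod_congr rfl fun i _ => h1 i, prod_mul_distrib, Finset.prod_ite_eq' univ j,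
    Finset.prod_ite_eq' univ j']
  simp

/-- sums of products -/
theorem sum_prod {ι : Type} [Fintype ι] {k : ℕ} (w : Fin k → ι → ℝ) :
    ∑ v : Fin k → ι, ∏ i, w i (v i) = ∏ i, ∑ a, w i a := by
  classical
  rw [Finset.prod_univ_sum]
  rw [Fintype.piFinset_univ]

variable {ι : Type}

/-- the weights of `A` -/
noncomputable def pA (p x : ι → ℝ) (g : ℝ) : ι → ℝ := fun i => if g < x i ∧ x i ≤ 1 + g then p i else 0

/-- the weights of `E` -/
noncomputable def pE (p x : ι → ℝ) (g : ℝ) : ι → ℝ := fun i => if 1 + g < x i then p i else 0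

/-- the first part of `E` -/
noncomputable def p1 (p x : ι → ℝ) (g B : ℝ) : ι → ℝ := fun i => if x i < B then pE p x g i else 0

/-- the second part of `E` -/
noncomputable def p2 (p x : ι → ℝ) (g B : ℝ) : ι → ℝ := fun i => if x i < B then 0 else pE p x g i

theorem pA0 {p x : ι → ℝ} (hp : ∀ i, 0 ≤ p i) (g : ℝ) (i : ι) : 0 ≤ pA p x g i := by
  unfold pA; split_ifs; exacts [hp i, le_rfl]

theorem pE0 {p x : ι → ℝ} (hp : ∀ i, 0 ≤ p i) (g : ℝ) (i : ι) : 0 ≤ pE p x g i := by
  unfold pE; split_ifs; exacts [hp i, le_rfl]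

theorem p10 {p x : ι → ℝ} (hp : ∀ i, 0 ≤ p i) (g B : ℝ) (i : ι) : 0 ≤ p1 p x g B i := by
  unfold p1; split_ifs; exacts [pE0 hp g i, le_rfl]

theorem p20 {p x : ι → ℝ} (hp : ∀ i, 0 ≤ p i) (g B : ℝ) (i : ι) : 0 ≤ p2 p x g B i := by
  unfold p2; split_ifs; exacts [le_rfl, pE0 hp g i]

/-- all entries at most `1 + g`, sum at least `k`: all entries larger than `g` -/
theorem sum_a {k : ℕ} {y : Fin k → ℝ} {g : ℝ} (hg : (k : ℝ) * g < 1) (h : ∀ i, y i ≤ 1 + g)
    (hs : (k : ℝ) ≤ ∑ i, y i) (i0 : Fin k) : g < y i0 := by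
  by_contra hcon
  push Not at hcon
  have h1 : ∑ i, y i ≤ ∑ i, ((1 + g) + (if i = i0 then (-1) else 0)) := by
    refine Finset.sum_le_sum fun i _ => ?_
    by_cases h2 : i = i0
    · rw [if_pos h2, h2]; linarith
    · rw [if_neg h2]; linarith [h i]
  rw [sum_add_distrib, Finset.sum_ite_eq' univ i0] at h1
  simp only [sum_const, card_univ, Fintype.card_fin, nsmul_eq_mul, mem_univ, if_true] at h1
  linarith

/-- one exceptional entry -/
theorem sum_b {k : ℕ} {y : Fin k → ℝ} {g : ℝ} (hg0 : 0 < g) {j : Fin k}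
    (h : ∀ i, i ≠ j → y i ≤ 1 + g) (hj : y j < 2 - k * g)
    (hs : (k : ℝ) ≤ ∑ i, y i) (i0 : Fin k) (h0 : i0 ≠ j) : g < y i0 := by
  by_contra hcon
  push Not at hcon
  have h1 : ∑ i, y i ≤ ∑ i, ((1 + g) + (if i = i0 then (-1) else 0) +
      (if i = j then y j - (1 + g) else 0)) := by
    refine Finset.sum_le_sum fun i _ => ?_
    by_cases h2 : i = i0
    · rw [if_pos h2, if_neg (by rw [h2]; exact h0), h2]; linarith
    · rw [if_neg h2]
      by_cases h3 : i = j
      · rw [if_pos h3, h3]; linarith
      · rw [if_neg h3]; linarith [h i h3]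
  rw [sum_add_distrib, sum_add_distrib, Finset.sum_ite_eq' univ i0, Finset.sum_ite_eq' univ j] at h1
  simp only [sum_const, card_univ, Fintype.card_fin, nsmul_eq_mul, mem_univ, if_true] at h1
  linarith

/-- the pointwise bound -/
theorem pw {p x : ι → ℝ} {k : ℕ} {g : ℝ} (hp : ∀ i, 0 ≤ p i) (hg0 : 0 < g) (hg : (k : ℝ) * g < 1)
    (v : Fin k → ι) : (∏ i, p (v i)) * (if (k : ℝ) ≤ ∑ i, x (v i) then 1 else 0) ≤
    (∏ i, pA p x g (v i)) * (if (k : ℝ) ≤ ∑ i, x (v i) then 1 else 0) +
    ∑ j, (∏ i, (if i = j then p1 p x g (2 - k * g) else pA p x g) (v i) +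
      ∏ i, (if i = j then p2 p x g (2 - k * g) else p) (v i)) +
    ∑ j : Fin k, ∑ j' : Fin k, (if j ≠ j' then
      ∏ i, (if i = j ∨ i = j' then pE p x g else p) (v i) else 0) := by
  have t1 : ∀ j : Fin k, 0 ≤ ∏ i, (if i = j then p1 p x g (2 - k * g) else pA p x g) (v i) := by
    intro j
    refine Finset.prod_nonneg fun i _ => ?_
    split_ifs
    exacts [p10 hp g _ _, pA0 hp g _]
  have t2 : ∀ j : Fin k, 0 ≤ ∏ i, (if i = j then p2 p x g (2 - k * g) else p) (v i) := by
    intro j
    refine Finset.prod_nonneg fun i _ => ?_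
    split_ifs
    exacts [p20 hp g _ _, hp _]
  have t3 : ∀ j j' : Fin k, 0 ≤ (if j ≠ j' then
      ∏ i, (if i = j ∨ i = j' then pE p x g else p) (v i) else 0) := by
    intro j j'
    split_ifs
    · refine Finset.prod_nonneg fun i _ => ?_
      split_ifs
      exacts [pE0 hp g _, hp _]
    · exact le_rfl
  have s12 : 0 ≤ ∑ j, (∏ i, (if i = j then p1 p x g (2 - k * g) else pA p x g) (v i) +
      ∏ i, (if i = j then p2 p x g (2 - k * g) else p) (v i)) :=
    Finset.sum_nonneg fun j _ => add_nonneg (t1 j) (t2 j)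
  have s3 : 0 ≤ ∑ j : Fin k, ∑ j' : Fin k, (if j ≠ j' then
      ∏ i, (if i = j ∨ i = j' then pE p x g else p) (v i) else 0) :=
    Finset.sum_nonneg fun j _ => Finset.sum_nonneg fun j' _ => t3 j j'
  have tA : 0 ≤ ∏ i, pA p x g (v i) := Finset.prod_nonneg fun i _ => pA0 hp g _
  by_cases hF : (k : ℝ) ≤ ∑ i, x (v i)
  · rw [if_pos hF, mul_one, mul_one]
    by_cases h2 : ∃ j j' : Fin k, j ≠ j' ∧ 1 + g < x (v j) ∧ 1 + g < x (v j')
    · obtain ⟨j, j', hjj, hj, hj'⟩ := h2
      have e1 : ∏ i, p (v i) = ∏ i, (if i = j ∨ i = j' then pE p x g else p) (v i) := by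
        refine Finset.prod_congr rfl fun i _ => ?_
        by_cases h3 : i = j ∨ i = j'
        · rw [if_pos h3]
          unfold pE
          rcases h3 with rfl | rfl
          · rw [if_pos hj]
          · rw [if_pos hj']
        · rw [if_neg h3]
      have e2 : (if j ≠ j' then ∏ i, (if i = j ∨ i = j' then pE p x g else p) (v i) else 0) ≤
          ∑ j' : Fin k, (if j ≠ j' then
            ∏ i, (if i = j ∨ i = j' then pE p x g else p) (v i) else 0) :=
        Finset.single_le_sum (f := fun j' => (if j ≠ j' then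
            ∏ i, (if i = j ∨ i = j' then pE p x g else p) (v i) else 0))
          (fun j' _ => t3 j j') (mem_univ j')
      have e3 := Finset.single_le_sum (f := fun j => ∑ j' : Fin k, (if j ≠ j' then
            ∏ i, (if i = j ∨ i = j' then pE p x g else p) (v i) else 0))
          (fun j _ => Finset.sum_nonneg fun j' _ => t3 j j') (mem_univ j)
      rw [if_pos hjj, ← e1] at e2
      linarith
    · by_cases h1 : ∃ j : Fin k, 1 + g < x (v j)
      · obtain ⟨j, hj⟩ := h1
        have hoth : ∀ i, i ≠ j → x (v i) ≤ 1 + g := by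
          intro i hi
          by_contra hcon
          push Not at hcon
          exact h2 ⟨i, j, hi, hcon, hj⟩
        have e3 := Finset.single_le_sum (f := fun j =>
            (∏ i, (if i = j then p1 p x g (2 - k * g) else pA p x g) (v i) +
              ∏ i, (if i = j then p2 p x g (2 - k * g) else p) (v i)))
          (fun j _ => add_nonneg (t1 j) (t2 j)) (mem_univ j)
        by_cases h3 : x (v j) < 2 - k * g
        · have e1 : ∏ i, p (v i) =
              ∏ i, (if i = j then p1 p x g (2 - k * g) else pA p x g) (v i) := by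
            refine Finset.prod_congr rfl fun i _ => ?_
            by_cases h4 : i = j
            · rw [if_pos h4, h4]
              unfold p1 pE
              rw [if_pos h3, if_pos hj]
            · rw [if_neg h4]
              unfold pA
              rw [if_pos ⟨sum_b hg0 hoth h3 hF i h4, hoth i h4⟩]
          rw [← e1] at e3
          linarith [t2 j]
        · have e1 : ∏ i, p (v i) =
              ∏ i, (if i = j then p2 p x g (2 - k * g) else p) (v i) := by
            refine Finset.prod_congr rfl fun i _ => ?_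
            by_cases h4 : i = j
            · rw [if_pos h4, h4]
              unfold p2 pE
              rw [if_neg h3, if_pos hj]
            · rw [if_neg h4]
          rw [← e1] at e3
          linarith [t1 j]
      · push Not at h1
        have e1 : ∏ i, p (v i) = ∏ i, pA p x g (v i) := by
          refine Finset.prod_congr rfl fun i _ => ?_
          unfold pA
          rw [if_pos ⟨sum_a hg h1 hF i, h1 i⟩]
        rw [e1]
        linarith
  · rw [if_neg hF, mul_zero, mul_zero, zero_add]
    exact add_nonneg s12 s3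

theorem cte (hT : S_TUP) : S_CTE := by
  intro ι _ p x k g hk hp hp1 hx hg0 hg
  rw [hT ι p x k, hT ι _ x k]
  unfold TE
  have h1 := Finset.sum_le_sum fun (v : Fin k → ι) (_ : v ∈ univ) => pw (x := x) hp hg0 hg v
  rw [sum_add_distrib, sum_add_distrib] at h1
  have hsum2 : ∑ v : Fin k → ι, ∑ j, (∏ i, (if i = j then p1 p x g (2 - k * g) else pA p x g) (v i) +
      ∏ i, (if i = j then p2 p x g (2 - k * g) else p) (v i)) =
      k * ∑ i, (if 1 + g < x i then p i else 0) * (if x i < 2 - k * g then
      (∑ j, if g < x j ∧ x j ≤ 1 + g then p j else 0) ^ (k - 1) else 1) := by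
    rw [Finset.sum_comm]
    have h2 : ∀ j : Fin k, ∑ v : Fin k → ι,
        (∏ i, (if i = j then p1 p x g (2 - k * g) else pA p x g) (v i) +
          ∏ i, (if i = j then p2 p x g (2 - k * g) else p) (v i)) =
        ∑ i, (if 1 + g < x i then p i else 0) * (if x i < 2 - k * g then
      (∑ j, if g < x j ∧ x j ≤ 1 + g then p j else 0) ^ (k - 1) else 1) := by
      intro j
      rw [sum_add_distrib, sum_prod (fun i => if i = j then p1 p x g (2 - k * g) else pA p x g),
        sum_prod (fun i => if i = j then p2 p x g (2 - k * g) else p)]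
      have e1 : ∀ i : Fin k, ∑ a, (if i = j then p1 p x g (2 - k * g) else pA p x g) a =
          if i = j then ∑ a, p1 p x g (2 - k * g) a else ∑ a, pA p x g a := by
        intro i; split_ifs <;> rfl
      have e2 : ∀ i : Fin k, ∑ a, (if i = j then p2 p x g (2 - k * g) else p) a =
          if i = j then ∑ a, p2 p x g (2 - k * g) a else ∑ a, p a := by
        intro i; split_ifs <;> rfl
      rw [Finset.prod_congr rfl fun i _ => e1 i, Finset.prod_congr rfl fun i _ => e2 i,
        prod_one, prod_one, hp1, one_pow, mul_one, Finset.sum_mul, ← sum_add_distrib]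
      refine Finset.sum_congr rfl fun a _ => ?_
      unfold p1 p2 pE pA
      by_cases h : x a < 2 - k * g
      · simp [h]
      · simp [h]
    rw [Finset.sum_congr rfl fun j _ => h2 j, sum_const, card_univ, Fintype.card_fin, nsmul_eq_mul]
  have hsum3 : ∑ v : Fin k → ι, ∑ j : Fin k, ∑ j' : Fin k, (if j ≠ j' then
      ∏ i, (if i = j ∨ i = j' then pE p x g else p) (v i) else 0) ≤
      (k : ℝ) ^ 2 * (∑ i, if 1 + g < x i then p i else 0) ^ 2 := by
    rw [Finset.sum_comm]
    have e0 : ∀ j : Fin k, ∑ v : Fin k → ι, ∑ j' : Fin k, (if j ≠ j' then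
        ∏ i, (if i = j ∨ i = j' then pE p x g else p) (v i) else 0) ≤
        k * (∑ i, if 1 + g < x i then p i else 0) ^ 2 := by
      intro j
      rw [Finset.sum_comm]
      have e1 : ∀ j' ∈ (univ : Finset (Fin k)), ∑ v : Fin k → ι, (if j ≠ j' then
          ∏ i, (if i = j ∨ i = j' then pE p x g else p) (v i) else 0) ≤
          (∑ i, if 1 + g < x i then p i else 0) ^ 2 := by
        intro j' _
        by_cases h : j ≠ j'
        · simp only [if_pos h]
          rw [sum_prod (fun i => if i = j ∨ i = j' then pE p x g else p)]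
          have e2 : ∀ i : Fin k, ∑ a, (if i = j ∨ i = j' then pE p x g else p) a =
              if i = j ∨ i = j' then ∑ a, pE p x g a else 1 := by
            intro i; split_ifs
            · rfl
            · exact hp1
          rw [Finset.prod_congr rfl fun i _ => e2 i, prod_two h, sq]
          rfl
        · simp only [if_neg h, sum_const_zero]
          exact sq_nonneg _
      refine (Finset.sum_le_sum e1).trans ?_
      rw [sum_const, card_univ, Fintype.card_fin, nsmul_eq_mul]
    refine (Finset.sum_le_sum fun j _ => e0 j).trans ?_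
    rw [sum_const, card_univ, Fintype.card_fin, nsmul_eq_mul]
    exact le_of_eq (by ring)
  rw [hsum2] at h1
  have h5 : ∑ v : Fin k → ι, (∏ i, pA p x g (v i)) * (if (k : ℝ) ≤ ∑ i, x (v i) then 1 else 0) =
      ∑ v : Fin k → ι, (∏ i, (if g < x (v i) ∧ x (v i) ≤ 1 + g then p (v i) else 0)) *
        (if (k : ℝ) ≤ ∑ i, x (v i) then 1 else 0) := rfl
  rw [h5] at h1
  linarith

end Cte

/-- with `S_TUP` as an additional hypothesis -/
theorem t_CTE : S_TUP → S_CTE := Cte.cte

end Pool.Agent.Q224.XU
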